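import Pool.Agent.Y650.TH.Defs

/-! Project ES2: the rank argument over the field with two elements. -/

set_option autoImplicit false

namespace Pool.Agent.Y672.TH

open Pool.Agent.NPC Pool.Agent.H622R2 Pool.Agent.Y650.TH

/-- bits as numbers modulo two -/
def b2 (b : Bool) : ZMod 2 := if b then 1 else 0

lemma b2_xor (a b : Bool) : b2 (xor a b) = b2 a + b2 b := by
  cases a <;> cases b <;> decide

lemma b2_and (a b : Bool) : b2 (a && b) = b2 a * b2 b := by
  cases a <;> cases b <;> decide

lemma b2_one (b : Bool) : b2 b = 1 ↔ b = true := by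
  cases b <;> decide

lemma b2_zero (b : Bool) : b2 b = 0 ↔ b = false := by
  cases b <;> decide

lemma b2_dec (x : ZMod 2) : b2 (decide (x = 1)) = x := by
  revert x
  decide

lemma z2 (x : ZMod 2) (h : x ≠ 0) : x = 1 := by
  revert x
  decide

/-- the vector of a list -/
def vec (m : ℕ) (s : List Bool) : Fin m → ZMod 2 := fun i => b2 (s.getD i.1 false)

lemma par_sum : ∀ (m : ℕ) (w s : List Bool), w.length = m → s.length = m →
    ∑ i : Fin m, vec m w i * vec m s i = b2 (par w s) := by
  intro m
  induction m with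
  | zero =>
    intro w s hw hs
    rw [List.length_eq_zero_iff] at hw hs
    subst hw hs
    simp [par, b2]
  | succ m ih =>
    intro w s hw hs
    obtain ⟨a, w', rfl⟩ := List.exists_cons_of_length_eq_add_one hw
    obtain ⟨b, s', rfl⟩ := List.exists_cons_of_length_eq_add_one hs
    have h1 := ih w' s' (by simpa using hw) (by simpa using hs)
    have h2 : par (a :: w') (b :: s') = xor (a && b) (par w' s') := rfl
    rw [Fin.sum_univ_succ, h2, b2_xor, b2_and, ← h1]
    rfl

lemma getD_ofFn {m : ℕ} (g : Fin m → Bool) (i : Fin m) :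
    (List.ofFn g).getD i.1 false = g i := by
  rw [List.getD_eq_getElem _ _ (by simp)]
  simp

lemma vec_ofFn {m : ℕ} (g : Fin m → Bool) (i : Fin m) : vec m (List.ofFn g) i = b2 (g i) := by
  unfold vec
  rw [getD_ofFn]

lemma vec_castSucc {n : ℕ} {s : List Bool} (hs : s.length = n) (i : Fin n) :
    vec (n + 1) (s ++ [true]) i.castSucc = b2 (s.getD i.1 false) := by
  unfold vec
  rw [Fin.val_castSucc, List.getD_append _ _ _ _ (by rw [hs]; exact i.2)]

lemma vec_last {n : ℕ} {s : List Bool} (hs : s.length = n) :
    vec (n + 1) (s ++ [true]) (Fin.last n) = 1 := by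
  unfold vec
  rw [Fin.val_last, List.getD_append_right _ _ _ _ (by rw [hs]), hs]
  simp [b2]

/-- the linear functional of a vector -/
noncomputable def dotf {m : ℕ} (c : Fin m → ZMod 2) : (Fin m → ZMod 2) →ₗ[ZMod 2] ZMod 2 :=
  ∑ i, c i • LinearMap.proj i

lemma dotf_apply {m : ℕ} (c x : Fin m → ZMod 2) : dotf c x = ∑ i, c i * x i := by
  simp [dotf, LinearMap.sum_apply]

lemma dotf_par {m : ℕ} {w s : List Bool} (hw : w.length = m) (hs : s.length = m) :
    dotf (vec m w) (vec m s) = b2 (par w s) := by
  rw [dotf_apply, par_sum m w s hw hs]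

/-- the triangular vectors are linearly independent -/
lemma indep {r m : ℕ} (v w : Fin r → (Fin m → ZMod 2))
    (h1 : ∀ i, dotf (w i) (v i) = 1) (h0 : ∀ i j, j < i → dotf (w i) (v j) = 0) :
    LinearIndependent (ZMod 2) v := by
  rw [Fintype.linearIndependent_iff]
  intro g hg
  by_contra hcon
  push Not at hcon
  obtain ⟨i0, hi0⟩ := hcon
  obtain ⟨i, hi, hmax⟩ := Finset.exists_max_image (Finset.univ.filter fun i => g i ≠ 0) id
    ⟨i0, by simpa using hi0⟩
  rw [Finset.mem_filter] at hi
  have h2 : dotf (w i) (∑ j, g j • v j) = g i := by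
    rw [map_sum, Finset.sum_eq_single i]
    · rw [map_smul, h1, smul_eq_mul, mul_one]
    · intro j _ hj
      rw [map_smul, smul_eq_mul]
      by_cases hgj : g j = 0
      · rw [hgj, zero_mul]
      · have h3 := hmax j (by simpa using hgj)
        have h4 : j < i := lt_of_le_of_ne h3 hj
        rw [h0 i j h4, mul_zero]
    · intro h
      exact absurd (Finset.mem_univ i) h
  rw [hg, map_zero] at h2
  exact hi.2 h2.symm

variable {M : List (List Bool)}

/-- the vector of the `j`-th set of a system -/
def sv (M : List (List Bool)) (l : List (List Bool × List Bool)) (j : ℕ) :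
    Fin (M.length + 1) → ZMod 2 := vec (M.length + 1) ((l.getD j ([], [])).1 ++ [true])

lemma mem_getD {l : List (List Bool × List Bool)} {j : ℕ} (hj : j < l.length) :
    l.getD j ([], []) ∈ l := by
  rw [List.getD_eq_getElem _ _ hj]
  exact List.getElem_mem hj

lemma ind_dot {l : List (List Bool × List Bool)} (h : Ind M l) {i j : ℕ} (hi : i < l.length)
    (hj : j ≤ i) :
    dotf (vec (M.length + 1) (l.getD i ([], [])).2) (sv M l j) = if j = i then 1 else 0 := by
  have h1 := h.1 _ (mem_getD hi)
  have h2 := h.1 _ (mem_getD (hj.trans_lt hi))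
  unfold sv
  rw [dotf_par h1.2.1 (by rw [List.length_append, h2.1]; rfl), h.2 i hi j hj]
  by_cases hji : j = i <;> simp [hji, b2]

lemma ind_card {l : List (List Bool × List Bool)} (h : Ind M l) : l.length ≤ M.length + 1 := by
  have h1 : LinearIndependent (ZMod 2) fun j : Fin l.length => sv M l j.1 := by
    refine indep _ (fun i => vec (M.length + 1) (l.getD i.1 ([], [])).2) ?_ ?_
    · intro i
      rw [ind_dot h i.2 le_rfl, if_pos rfl]
    · intro i j hj
      have hj' : j.1 < i.1 := hj
      rw [ind_dot h i.2 hj'.le, if_neg hj'.ne]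
  have h2 := h1.fintype_card_le_finrank
  simpa using h2

open Classical in
/-- the functional of a clique -/
noncomputable def kv (M : List (List Bool)) (K : Set (Fin M.length)) :
    Fin (M.length + 1) → ZMod 2 :=
  Fin.snoc (α := fun _ => ZMod 2) (fun i => if i ∈ K then 1 else 0) 1

lemma meets {K : Set (Fin M.length)} (hK : (matGraph M).IsClique K) {s : List Bool}
    (hs : s.length = M.length) (hS : (matGraph M).IsIndepSet (vset M s)) :
    dotf (kv M K) (vec (M.length + 1) (s ++ [true])) = 0 ↔ (K ∩ vset M s).Nonempty := by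
  classical
  rw [dotf_apply, Fin.sum_univ_castSucc, vec_last hs]
  have e1 : kv M K (Fin.last M.length) = 1 := by
    unfold kv
    rw [Fin.snoc_last]
  have e2 : ∀ i : Fin M.length, kv M K i.castSucc * vec (M.length + 1) (s ++ [true]) i.castSucc =
      if i ∈ K ∧ i ∈ vset M s then 1 else 0 := by
    intro i
    rw [vec_castSucc hs]
    unfold kv
    rw [Fin.snoc_castSucc]
    have : i ∈ vset M s ↔ s.getD i.1 false = true := Iff.rfl
    rw [this]
    by_cases h1 : i ∈ K
    · by_cases h2 : s.getD i.1 false = true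
      · rw [if_pos h1, if_pos ⟨h1, h2⟩, h2]
        rfl
      · rw [(b2_zero _).2 (by simpa using h2), mul_zero]
        exact (if_neg fun h => h2 h.2).symm
    · rw [if_neg h1, zero_mul]
      exact (if_neg fun h => h1 h.1).symm
  rw [e1, Finset.sum_congr rfl fun i _ => e2 i]
  constructor
  · intro h
    by_contra hcon
    have h1 : ∀ i : Fin M.length, (if i ∈ K ∧ i ∈ vset M s then (1 : ZMod 2) else 0) = 0 :=
      fun i => if_neg fun h2 => hcon ⟨i, h2.1, h2.2⟩
    rw [Finset.sum_eq_zero fun i _ => h1 i] at h
    simp at h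
  · rintro ⟨i, hi, hi'⟩
    rw [Finset.sum_eq_single i]
    · rw [if_pos ⟨hi, hi'⟩]
      decide
    · intro j _ hj
      refine if_neg fun h2 => ?_
      exact hS h2.2 hi' hj (hK h2.1 hi hj)
    · intro h
      exact absurd (Finset.mem_univ i) h

open Classical in
/-- the list of a set -/
noncomputable def ls (M : List (List Bool)) (S : Set (Fin M.length)) : List Bool :=
  List.ofFn fun i => decide (i ∈ S)

lemma ls_length (S : Set (Fin M.length)) : (ls M S).length = M.length := by
  simp [ls]

lemma vset_ls (S : Set (Fin M.length)) : vset M (ls M S) = S := by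
  ext i
  show (ls M S).getD i.1 false = true ↔ i ∈ S
  unfold ls
  rw [getD_ofFn]
  simp

/-- a maximal stable set is in the span if the system cannot be extended -/
lemma in_span {l : List (List Bool × List Bool)} (h : Ind M l) (hn : ¬ CertR M (l.length + 1))
    {S : Set (Fin M.length)} (hS : Maximal (matGraph M).IsIndepSet S) :
    vec (M.length + 1) (ls M S ++ [true]) ∈
      Submodule.span (ZMod 2) (Set.range fun j : Fin l.length => sv M l j.1) := by
  by_contra hcon
  obtain ⟨f, hf, hle⟩ := Submodule.exists_le_ker_of_notMem hcon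
  apply hn
  obtain ⟨w, hw⟩ : ∃ w : List Bool, w = List.ofFn fun i : Fin (M.length + 1) =>
      decide (f (fun j => if i = j then 1 else 0) = 1) := ⟨_, rfl⟩
  have hwl : w.length = M.length + 1 := by rw [hw]; simp
  have hfw : ∀ x, f x = dotf (vec (M.length + 1) w) x := by
    intro x
    rw [dotf_apply, LinearMap.pi_apply_eq_sum_univ f x]
    refine Finset.sum_congr rfl fun i _ => ?_
    rw [hw, vec_ofFn, b2_dec, smul_eq_mul, mul_comm]
  have hlast : (l ++ [(ls M S, w)]).getD l.length ([], []) = (ls M S, w) := by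
    rw [List.getD_append_right _ _ _ _ le_rfl]
    simp
  have hold : ∀ j < l.length, (l ++ [(ls M S, w)]).getD j ([], []) = l.getD j ([], []) :=
    fun j hj => List.getD_append _ _ _ _ hj
  refine ⟨l ++ [(ls M S, w)], by simp, ?_, ?_⟩
  · intro p hp
    rw [List.mem_append, List.mem_singleton] at hp
    rcases hp with hp | rfl
    · exact h.1 p hp
    · refine ⟨ls_length S, hwl, ?_⟩
      show Maximal (matGraph M).IsIndepSet (vset M (ls M S))
      rw [vset_ls]
      exact hS
  · intro i hi j hj
    rw [List.length_append, List.length_singleton] at hi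
    rcases Nat.lt_or_ge i l.length with h1 | h1
    · rw [hold i h1, hold j (hj.trans_lt h1)]
      exact h.2 i h1 j hj
    · have hi' : i = l.length := by omega
      subst hi'
      rw [hlast]
      rcases Nat.lt_or_ge j l.length with h2 | h2
      · rw [hold j h2, decide_eq_false h2.ne, ← b2_zero,
          ← dotf_par hwl (by
            rw [List.length_append, (h.1 _ (mem_getD h2)).1]; rfl), ← hfw]
        exact hle (Submodule.subset_span ⟨⟨j, h2⟩, rfl⟩)
      · have hj' : j = l.length := by omega
        subst hj'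
        rw [hlast, decide_eq_true rfl, ← b2_one,
          ← dotf_par hwl (by rw [List.length_append, ls_length]; rfl), ← hfw]
        exact z2 _ hf

theorem mem1 : S_MEM1 := by
  have bd : ∀ M r, CertR M r → r ≤ M.length + 1 := by
    rintro M r ⟨l, rfl, hl⟩
    exact ind_card hl
  refine ⟨bd, fun M => ⟨fun hE => ?_, ?_⟩⟩
  · obtain ⟨r, hr, hr'⟩ : ∃ r, CertR M r ∧ ¬ CertR M (r + 1) := by
      by_contra hcon
      push Not at hcon
      have hall : ∀ r, CertR M r := by
        intro r
        induction r with
        | zero => exact ⟨[], rfl, by simp, by simp⟩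
        | succ r ih => exact hcon r ih
      have := bd M _ (hall (M.length + 2))
      omega
    refine ⟨r, bd M r hr, ?_, hr'⟩
    obtain ⟨l, hl, hI⟩ := hr
    refine ⟨l, hl, hI, fun i j hij => ?_⟩
    obtain ⟨K, hK, hi, hj⟩ := hE i j hij
    exact ⟨K, hK.1, hi, hj, fun p hp => hK.2 _ (hI.1 p hp).2.2⟩
  · rintro ⟨r, -, ⟨l, rfl, hI, hedge⟩, hn⟩ i j hij
    obtain ⟨K, hK, hi, hj, hmeet⟩ := hedge i j hij
    refine ⟨K, ⟨hK, fun S hS => ?_⟩, hi, hj⟩
    have hsp := in_span hI hn hS
    have hker : Submodule.span (ZMod 2) (Set.range fun j : Fin l.length => sv M l j.1) ≤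
        LinearMap.ker (dotf (kv M K)) := by
      rw [Submodule.span_le]
      rintro _ ⟨j, rfl⟩
      have h1 := hI.1 _ (mem_getD j.2)
      exact (meets hK h1.1 h1.2.2.1).2 (hmeet _ (mem_getD j.2))
    have h2 := hker hsp
    rw [LinearMap.mem_ker, meets hK (ls_length S) (by rw [vset_ls]; exact hS.1), vset_ls] at h2
    exact h2

end Pool.Agent.Y672.TH
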